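import Mathlib

set_option autoImplicit false

namespace Pool.Agent.Results.MP_482303_co.Aut

open Finset

variable {P Δ : Type} [Fintype P] [DecidableEq P] [Fintype Δ] [DecidableEq Δ]

/-- the trace of a set on the fibre over j -/
def tr (B : Finset (P × Δ)) (j : Δ) : Finset P := univ.filter fun p => (p, j) ∈ B

/-- blocks of the blow-up design -/
def Blk (𝓑 : Finset (Finset P)) (B : Finset (P × Δ)) : Prop :=
  ∃ i, tr B i ∈ 𝓑 ∧ ∀ j, j ≠ i → #(tr B j) = 1

/-- a permutation of the points mapping the block set onto itself -/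
def IsAut {X : Type} [DecidableEq X] (S : Finset X → Prop) (φ : Equiv.Perm X) : Prop :=
  ∀ B, S (B.image φ) ↔ S B

def R (𝓑 : Finset (Finset P)) (T : Finset (P × Δ)) : Set (P × Δ) :=
  {z | z ∉ T ∧ Blk 𝓑 (insert z T)}

lemma R_map {𝓑 : Finset (Finset P)} {φ : Equiv.Perm (P × Δ)} (h : IsAut (Blk 𝓑) φ)
    (T : Finset (P × Δ)) (z : P × Δ) : φ z ∈ R 𝓑 (T.image φ) ↔ z ∈ R 𝓑 T := by
  simp only [R, Set.mem_ofPred_eq, ← image_insert, h _]
  simp

lemma mem_tr {B : Finset (P × Δ)} {j : Δ} {p : P} : p ∈ tr B j ↔ (p, j) ∈ B := by simp [tr]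

lemma tr_insert (T : Finset (P × Δ)) (z : P × Δ) (j : Δ) :
    tr (insert z T) j = if z.2 = j then insert z.1 (tr T j) else tr T j := by
  ext p
  split_ifs with h
  · simp [mem_tr, Prod.ext_iff, h]
  · simp [mem_tr, Prod.ext_iff, Ne.symm h]

def mkB (t : Δ → Finset P) : Finset (P × Δ) := univ.filter fun z => z.1 ∈ t z.2

lemma tr_mkB (t : Δ → Finset P) (j : Δ) : tr (mkB t) j = t j := by
  ext p; simp [mem_tr, mkB]

lemma blk_iff {𝓑 : Finset (Finset P)} {k : ℕ} (hk : ∀ B ∈ 𝓑, #B = k) (h2 : 2 ≤ k)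
    {C : Finset (P × Δ)} {j : Δ} (h : ∀ l, l ≠ j → #(tr C l) = 1) : Blk 𝓑 C ↔ tr C j ∈ 𝓑 := by
  refine ⟨fun ⟨i, h1, _⟩ => ?_, fun h1 => ⟨j, h1, h⟩⟩
  by_cases e : i = j
  · exact e ▸ h1
  · have := hk _ h1
    rw [h i e] at this
    omega

lemma tr_image {φ : Equiv.Perm (P × Δ)} {σ : Equiv.Perm Δ} {g : Δ → Equiv.Perm P}
    (h : ∀ p j, φ (p, j) = (g j p, σ j)) (C : Finset (P × Δ)) (l : Δ) :
    tr (C.image φ) (σ l) = (tr C l).image (g l) := by
  ext p
  obtain ⟨q, rfl⟩ := (g l).surjective p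
  rw [mem_tr, ← h]
  simp [mem_tr]

lemma R_fib {𝓑 : Finset (Finset P)} {k : ℕ} (hk : ∀ B ∈ 𝓑, #B = k) (h2 : 2 ≤ k)
    {T : Finset (P × Δ)} {i j : Δ} (hij : j ≠ i) (h1 : tr T i ∈ 𝓑) (h0 : tr T j = ∅)
    (h : ∀ l, l ≠ i → l ≠ j → #(tr T l) = 1) (z : P × Δ) : z ∈ R 𝓑 T ↔ z.2 = j := by
  constructor
  · rintro ⟨-, m, a1, a2⟩
    by_contra hc
    have e : tr (insert z T) j = ∅ := by rw [tr_insert, if_neg hc, h0]
    by_cases hm : j = m
    · have := hk _ a1
      rw [← hm, e] at this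
      simp at this; omega
    · have := a2 j hm
      rw [e] at this
      simp at this
  · intro hz
    refine ⟨fun hc => ?_, i, by rw [tr_insert, if_neg (hz ▸ hij)]; exact h1, fun l hl => ?_⟩
    · have : z.1 ∈ tr T j := mem_tr.2 (hz ▸ hc)
      simp [h0] at this
    · rw [tr_insert]
      split_ifs with e
      · rw [← e, hz, h0]; simp
      · exact h l hl fun e' => e (hz.trans e'.symm)

lemma fib_pres {𝓑 : Finset (Finset P)} {k : ℕ} (hk : ∀ B ∈ 𝓑, #B = k) (h2 : 2 ≤ k)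
    (hr : ∀ p, ∃ B ∈ 𝓑, p ∈ B) (p0 : P) (he : 2 ≤ Fintype.card Δ)
    (h3 : 3 ≤ Fintype.card Δ ∨ 3 ≤ k) {φ : Equiv.Perm (P × Δ)} (hφ : IsAut (Blk 𝓑) φ) (j : Δ) :
    ∃ j', ∀ z, (φ z).2 = j' ↔ z.2 = j := by
  have : Nontrivial Δ := Fintype.one_lt_card_iff_nontrivial.1 he
  obtain ⟨i0, hi0⟩ := exists_ne j
  obtain ⟨B0, hB0, -⟩ := hr p0
  let T := mkB fun l => if l = i0 then B0 else if l = j then ∅ else {p0}
  have hT : ∀ z, φ z ∈ R 𝓑 (T.image φ) ↔ z.2 = j := fun z => by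
    rw [R_map hφ]
    exact R_fib hk h2 hi0.symm (by simp [T, tr_mkB, hB0]) (by simp [T, tr_mkB, hi0.symm])
      (fun l a b => by simp [T, tr_mkB, a, b]) z
  generalize T.image φ = U at hT
  obtain ⟨z0, hz0⟩ : ∃ z0, z0 ∈ R 𝓑 U := ⟨_, (hT (p0, j)).2 rfl⟩
  obtain ⟨a0, i, a1, a2⟩ := hz0
  have a0' : z0.1 ∉ tr U z0.2 := fun h => a0 (mem_tr.1 h)
  by_cases hi : z0.2 = i
  swap
  · refine ⟨z0.2, fun z => ?_⟩
    rw [← hT, R_fib hk h2 hi (i := i)]
    · rwa [tr_insert, if_neg hi] at a1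
    · have := a2 _ hi
      rw [tr_insert, if_pos rfl, card_insert_of_notMem a0'] at this
      exact card_eq_zero.1 (by omega)
    · intro l b1 b2
      have := a2 l b1
      rwa [tr_insert, if_neg (Ne.symm b2)] at this
  exfalso
  subst hi
  have c1 : ∀ l, l ≠ z0.2 → #(tr U l) = 1 := fun l hl => by
    have := a2 l hl
    rwa [tr_insert, if_neg (Ne.symm hl)] at this
  have c2 : #(tr U z0.2) + 1 = k := by
    have := hk _ a1
    rwa [tr_insert, if_pos rfl, card_insert_of_notMem a0'] at this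
  by_cases hk3 : 3 ≤ k
  · have hin : ∀ p, (φ (p, j)).2 = z0.2 ∧ (φ (p, j)).1 ∉ tr U z0.2 := by
      intro p
      obtain ⟨b0, m, b1, b2⟩ := (hT (p, j)).2 rfl
      have e : (φ (p, j)).2 = z0.2 := by
        by_contra hc
        have d1 : #(tr (insert (φ (p, j)) U) z0.2) + 1 = k := by rwa [tr_insert, if_neg hc]
        have d2 : #(tr (insert (φ (p, j)) U) (φ (p, j)).2) = 2 := by
          have d3 : (φ (p, j)).1 ∉ tr U (φ (p, j)).2 := fun h => b0 (mem_tr.1 h)
          rw [tr_insert, if_pos rfl, card_insert_of_notMem d3, c1 _ hc]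
        by_cases hm : z0.2 = m
        · have := b2 _ (hm ▸ hc)
          omega
        · have := b2 _ hm
          omega
      exact ⟨e, fun h => b0 (by rw [← e] at h; exact mem_tr.1 h)⟩
    have inj : Function.Injective fun p => (φ (p, j)).1 := fun p q h => by
      have : φ (p, j) = φ (q, j) := Prod.ext h ((hin p).1.trans (hin q).1.symm)
      simpa using this
    obtain ⟨x, hx⟩ := card_pos.1 (show 0 < #(tr U z0.2) by omega)
    obtain ⟨p, rfl⟩ := Finite.injective_iff_surjective.1 inj x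
    exact (hin p).2 hx
  have k2 : k = 2 := by omega
  have c3 : ∀ l, #(tr U l) = 1 := fun l => by
    by_cases h : l = z0.2
    · rw [h]; omega
    · exact c1 l h
  have hs : ∀ l, ∃ u, (u, l) ∈ R 𝓑 U := by
    intro l
    obtain ⟨t, ht⟩ := card_eq_one.1 (c3 l)
    obtain ⟨B, hB, htB⟩ := hr t
    obtain ⟨u, hu⟩ := card_eq_one.1 (show #(B.erase t) = 1 by
      rw [card_erase_of_mem htB, hk B hB, k2])
    have hut : u ≠ t := ne_of_mem_erase (hu ▸ mem_singleton_self u)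
    refine ⟨u, fun h => hut (by simpa [ht] using mem_tr.2 h), l, ?_, fun m hm => ?_⟩
    · rw [tr_insert, if_pos rfl, ht, pair_comm, insert_eq, ← insert_eq, ← hu, insert_erase htB]
      exact hB
    · rw [tr_insert, if_neg (Ne.symm hm), c3]
  choose s hs using hs
  obtain ⟨B1, hB1, hsB⟩ := hr (s j)
  let C := mkB fun l => if l = j then B1 else {s l}
  have hC : Blk 𝓑 C := ⟨j, by simp [C, tr_mkB, hB1], fun l hl => by simp [C, tr_mkB, hl]⟩
  have hC' : Blk 𝓑 (C.image φ.symm) := by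
    rw [← hφ, image_image]; simpa using hC
  have hj : ∀ l, (φ.symm (s l, l)).2 = j := fun l => (hT _).1 (by simpa using hs l)
  have hle : #(univ : Finset Δ) ≤ #(tr (C.image φ.symm) j) := by
    refine card_le_card_of_injOn (fun l => (φ.symm (s l, l)).1) (fun l _ => ?_) fun l _ m _ h => ?_
    · refine mem_coe.2 (mem_tr.2 ?_)
      rw [← hj l]
      refine mem_image_of_mem _ ?_
      by_cases e : l = j
      · simp [C, mkB, e, hsB]
      · simp [C, mkB, e]
    · have : φ.symm (s l, l) = φ.symm (s m, m) := Prod.ext h ((hj l).trans (hj m).symm)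
      exact (Prod.ext_iff.1 (φ.symm.injective this)).2
  rw [card_univ] at hle
  obtain ⟨m, b1, b2⟩ := hC'
  by_cases hm : j = m
  · have := hk _ b1
    rw [← hm] at this
    omega
  · have := b2 j hm
    omega

theorem result (P Δ : Type) [Fintype P] [DecidableEq P] [Nonempty P] [Fintype Δ] [DecidableEq Δ]
    (𝓑 : Finset (Finset P)) (k r : ℕ) (hk : ∀ B ∈ 𝓑, #B = k) (h2 : 2 ≤ k) (h1 : 1 ≤ r)
    (hr : ∀ p, #(𝓑.filter fun B => p ∈ B) = r) (he : 2 ≤ Fintype.card Δ)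
    (h3 : 3 ≤ Fintype.card Δ ∨ 3 ≤ k) (φ : Equiv.Perm (P × Δ)) :
    IsAut (Blk 𝓑) φ ↔ ∃ (σ : Equiv.Perm Δ) (g : Δ → Equiv.Perm P),
      (∀ j, IsAut (· ∈ 𝓑) (g j)) ∧ ∀ p j, φ (p, j) = (g j p, σ j) := by
  obtain ⟨p0⟩ := ‹Nonempty P›
  have hr' : ∀ p, ∃ B ∈ 𝓑, p ∈ B := fun p => by
    obtain ⟨B, hB⟩ := card_pos.1 (show 0 < #(𝓑.filter fun B => p ∈ B) by rw [hr]; omega)
    exact ⟨B, mem_filter.1 hB⟩
  constructor
  · intro hφ
    choose σ hσ using fib_pres hk h2 hr' p0 he h3 hφ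
    have i1 : Function.Injective σ := fun a b h =>
      (hσ b (p0, a)).1 (h ▸ (hσ a (p0, a)).2 rfl)
    have i2 : ∀ j, Function.Injective fun p => (φ (p, j)).1 := fun j p q h => by
      have : φ (p, j) = φ (q, j) :=
        Prod.ext h (((hσ j _).2 rfl).trans ((hσ j (q, j)).2 rfl).symm)
      simpa using this
    let σ' := Equiv.ofBijective σ (Finite.injective_iff_bijective.1 i1)
    let g := fun j => Equiv.ofBijective _ (Finite.injective_iff_bijective.1 (i2 j))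
    have hf : ∀ p j, φ (p, j) = (g j p, σ' j) := fun p j => Prod.ext rfl ((hσ j _).2 rfl)
    refine ⟨σ', g, fun j B => ?_, hf⟩
    have := hφ (mkB fun l => if l = j then B else {p0})
    rw [blk_iff hk h2 (j := σ' j), blk_iff hk h2 (j := j), tr_image hf] at this
    · simpa [tr_mkB] using this
    · intro l hl; simp [tr_mkB, hl]
    · intro l hl
      obtain ⟨m, rfl⟩ := σ'.surjective l
      have : m ≠ j := fun e => hl (by rw [e])
      rw [tr_image hf]; simp [tr_mkB, this]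
  · rintro ⟨σ, g, hg, hf⟩ B
    constructor
    · rintro ⟨i, a1, a2⟩
      obtain ⟨m, rfl⟩ := σ.surjective i
      rw [tr_image hf] at a1
      refine ⟨m, (hg m _).1 a1, fun l hl => ?_⟩
      have := a2 (σ l) (σ.injective.ne hl)
      rwa [tr_image hf, card_image_of_injective _ (g l).injective] at this
    · rintro ⟨i, a1, a2⟩
      refine ⟨σ i, by rw [tr_image hf]; exact (hg i _).2 a1, fun l hl => ?_⟩
      obtain ⟨m, rfl⟩ := σ.surjective l
      rw [tr_image hf, card_image_of_injective _ (g m).injective]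
      exact a2 m fun e => hl (by rw [e])

end Pool.Agent.Results.MP_482303_co.Aut
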